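import Pool.Agent.BKW.Stmts

/-!
# Squad BKW, row BCT: the count
-/

set_option autoImplicit false

namespace Pool.Agent.BKW.H15

open Finset

/-- The numbers with the primes of `h` and exponents at most `E`. -/
noncomputable def HH (E h : ℕ) : Finset ℕ :=
  (Finset.univ : Finset (h.primeFactors → Fin (E + 1))).image
    (fun f => ∏ q : h.primeFactors, (q : ℕ) ^ (f q : ℕ))

theorem card_HH {E h r : ℕ} (hr : h.primeFactors.card ≤ r) : (HH E h).card ≤ (E + 1) ^ r := by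
  refine Finset.card_image_le.trans ?_
  rw [Finset.card_univ, Fintype.card_fun, Fintype.card_fin, Fintype.card_coe]
  exact Nat.pow_le_pow_right (by omega) hr

theorem mem_HH {E h h' : ℕ} (h1 : 1 ≤ h') (hp : h'.primeFactors = h.primeFactors)
    (hE : ∀ q : ℕ, h'.factorization q ≤ E) : h' ∈ HH E h := by
  rw [HH, Finset.mem_image]
  refine ⟨fun q => ⟨h'.factorization q, Nat.lt_succ_of_le (hE _)⟩, Finset.mem_univ _, ?_⟩
  simp only
  rw [Finset.prod_coe_sort h.primeFactors (fun q => q ^ h'.factorization q), ← hp]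
  exact Nat.prod_factorization_pow_eq_self (by omega)

theorem HH_le {E h h' : ℕ} (h1 : 1 ≤ h) (hh : h' ∈ HH E h) : h' ≤ h ^ E := by
  rw [HH, Finset.mem_image] at hh
  obtain ⟨f, -, rfl⟩ := hh
  calc ∏ q : h.primeFactors, (q : ℕ) ^ (f q : ℕ)
      ≤ ∏ q : h.primeFactors, (q : ℕ) ^ E := by
        apply Finset.prod_le_prod'
        intro q _
        have := Nat.pos_of_mem_primeFactors q.2
        exact Nat.pow_le_pow_right this (Nat.le_of_lt_succ (f q).2)
    _ = (∏ q : h.primeFactors, (q : ℕ)) ^ E := by rw [Finset.prod_pow]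
    _ = (∏ q ∈ h.primeFactors, q) ^ E := by
        rw [Finset.prod_coe_sort h.primeFactors (fun q => q)]
    _ ≤ h ^ E := Nat.pow_le_pow_left
        (Nat.le_of_dvd h1 (Nat.prod_primeFactors_dvd h)) E

theorem card_primes_le {G x E : ℕ} (hG : G ≤ x ^ E) :
    G.primeFactors.card ≤ E * (Nat.log 2 x + 1) := by
  rcases Nat.eq_zero_or_pos G with rfl | hpos
  · simp
  have h1 : 2 ^ G.primeFactors.card ≤ G := by
    calc 2 ^ G.primeFactors.card = ∏ _q ∈ G.primeFactors, 2 := by rw [Finset.prod_const]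
      _ ≤ ∏ q ∈ G.primeFactors, q := by
          apply Finset.prod_le_prod'
          intro q hq
          exact (Nat.prime_of_mem_primeFactors hq).two_le
      _ ≤ G := Nat.le_of_dvd hpos (Nat.prod_primeFactors_dvd G)
  have h2 : x ^ E ≤ 2 ^ (E * (Nat.log 2 x + 1)) := by
    rw [mul_comm, pow_mul]
    exact Nat.pow_le_pow_left (Nat.lt_pow_succ_log_self (by norm_num) x).le E
  exact (Nat.pow_le_pow_iff_right (by norm_num : 1 < 2)).1 (h1.trans (hG.trans h2))

/-- The numbers `k + 1`, `k` with few primes, all in `Q`. -/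
noncomputable def KK (x r : ℕ) (Q : Finset ℕ) : Finset ℕ :=
  ((Finset.Icc 1 x).filter (fun k => k.primeFactors ⊆ Q ∧ k.primeFactors.card ≤ r)).image
    (fun k => k + 1)

theorem card_KK (hs : SmsStmt) {x r V : ℕ} {Q : Finset ℕ} (hV : Q.card ≤ V) :
    (KK x r Q).card ≤ (V * Nat.log 2 x + 1) ^ r := by
  refine Finset.card_image_le.trans ?_
  have h1 := hs x r Q
  have e : {k : ℕ | 1 ≤ k ∧ k ≤ x ∧ k.primeFactors ⊆ Q ∧ k.primeFactors.card ≤ r} =
      (((Finset.Icc 1 x).filter (fun k => k.primeFactors ⊆ Q ∧ k.primeFactors.card ≤ r) :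
        Finset ℕ) : Set ℕ) := by
    ext k
    simp only [Set.mem_setOf_eq, Finset.coe_filter, Finset.mem_Icc]
    tauto
  rw [e, Set.ncard_coe_finset] at h1
  refine h1.trans (Nat.pow_le_pow_left ?_ r)
  exact Nat.add_le_add_right (Nat.mul_le_mul_right _ hV) 1

/-- The big union. -/
noncomputable def UU (x y r E : ℕ) : Finset ℕ :=
  ((Finset.Icc 1 (x / y)).filter (fun h => h.primeFactors.card ≤ r)).biUnion fun h =>
    (Finset.Icc 1 E).biUnion fun e => (HH E h).biUnion fun h' =>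
      KK x r (((h : ℤ) ^ e - (h' : ℤ)).natAbs).primeFactors

theorem card_UU (hs : SmsStmt) (x y r E : ℕ) (hy : 1 ≤ y) (hx : 1 ≤ x) :
    (UU x y r E).card ≤
      x / y * (E * ((E + 1) ^ r * (E * (Nat.log 2 x + 1) * Nat.log 2 x + 1) ^ r)) := by
  have hc : ((Finset.Icc 1 (x / y)).filter (fun h => h.primeFactors.card ≤ r)).card ≤ x / y := by
    refine (Finset.card_filter_le _ _).trans ?_
    rw [Nat.card_Icc, Nat.add_sub_cancel]
  refine le_trans (Finset.card_biUnion_le_card_mul _ _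
    (E * ((E + 1) ^ r * (E * (Nat.log 2 x + 1) * Nat.log 2 x + 1) ^ r)) ?_)
    (Nat.mul_le_mul_right _ hc)
  intro h hh
  rw [Finset.mem_filter, Finset.mem_Icc] at hh
  have hxh : h ≤ x := hh.1.2.trans (Nat.div_le_self x y)
  refine le_trans (Finset.card_biUnion_le_card_mul _ _
    ((E + 1) ^ r * (E * (Nat.log 2 x + 1) * Nat.log 2 x + 1) ^ r) ?_) ?_
  · intro e he
    rw [Finset.mem_Icc] at he
    refine le_trans (Finset.card_biUnion_le_card_mul _ _
      ((E * (Nat.log 2 x + 1) * Nat.log 2 x + 1) ^ r) ?_)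
      (Nat.mul_le_mul_right _ (card_HH hh.2))
    intro h' hh'
    apply card_KK hs
    apply card_primes_le
    have h1 : h' ≤ x ^ E := (HH_le hh.1.1 hh').trans (Nat.pow_le_pow_left hxh E)
    have h2 : h ^ e ≤ x ^ E :=
      (Nat.pow_le_pow_left hxh e).trans (Nat.pow_le_pow_right hx he.2)
    have h3 : (((h : ℤ) ^ e - (h' : ℤ)).natAbs : ℤ) ≤ ((x ^ E : ℕ) : ℤ) := by
      rw [Int.natCast_natAbs, abs_le]
      have a1 : ((h' : ℕ) : ℤ) ≤ ((x ^ E : ℕ) : ℤ) := by exact_mod_cast h1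
      have a2 : ((h ^ e : ℕ) : ℤ) ≤ ((x ^ E : ℕ) : ℤ) := by exact_mod_cast h2
      have a3 : (0 : ℤ) ≤ ((h' : ℕ) : ℤ) := Int.natCast_nonneg _
      have a4 : (0 : ℤ) ≤ ((h ^ e : ℕ) : ℤ) := Int.natCast_nonneg _
      rw [Nat.cast_pow] at a2 a4
      constructor <;> linarith
    exact_mod_cast h3
  · apply Nat.mul_le_mul_right
    rw [Nat.card_Icc]; omega

theorem Bd_sub (x y r E : ℕ) (hy : 1 ≤ y) : Bd x y r E ⊆ (UU x y r E : Set ℕ) := by
  rintro n ⟨hn2, hnx, hr, p, h, e, h', hp, hyp, hn, hhr, he1, heE, h'1, hpf, hfE, hne, hq⟩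
  have hh1 : 1 ≤ h := by
    rcases Nat.eq_zero_or_pos h with rfl | h0
    · rw [mul_zero] at hn; omega
    · exact h0
  have hhx : h ≤ x / y := by
    rw [Nat.le_div_iff_mul_le hy]
    calc h * y ≤ h * p := Nat.mul_le_mul_left h hyp.le
      _ = n := by rw [hn, mul_comm]
      _ ≤ x := hnx
  rw [Finset.mem_coe, UU, Finset.mem_biUnion]
  refine ⟨h, by rw [Finset.mem_filter, Finset.mem_Icc]; exact ⟨⟨hh1, hhx⟩, hhr⟩, ?_⟩
  rw [Finset.mem_biUnion]
  refine ⟨e, by rw [Finset.mem_Icc]; exact ⟨he1, heE⟩, ?_⟩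
  rw [Finset.mem_biUnion]
  refine ⟨h', mem_HH h'1 hpf hfE, ?_⟩
  rw [KK, Finset.mem_image]
  refine ⟨n - 1, ?_, by omega⟩
  rw [Finset.mem_filter, Finset.mem_Icc]
  refine ⟨⟨by omega, by omega⟩, ?_, hr⟩
  intro q hqm
  have hqp := Nat.prime_of_mem_primeFactors hqm
  have hqd := Nat.dvd_of_mem_primeFactors hqm
  have h1 := hq q hqp hqd
  rw [Nat.mem_primeFactors]
  refine ⟨hqp, Int.natCast_dvd.1 h1, ?_⟩
  intro h0
  rw [Int.natAbs_eq_zero, sub_eq_zero] at h0
  apply hne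
  exact_mod_cast h0.symm

/-- **BCT**. -/
theorem bct (hs : SmsStmt) : BctStmt := by
  intro x y r E hy hE hx
  have h1 : (Bd x y r E).ncard ≤ (UU x y r E).card := by
    rw [← Set.ncard_coe_finset]
    exact Set.ncard_le_ncard (Bd_sub x y r E hy) (Finset.finite_toSet _)
  have h2 := h1.trans (card_UU hs x y r E hy hx)
  have h3 : ((Bd x y r E).ncard : ℝ) ≤
      ((x / y * (E * ((E + 1) ^ r * (E * (Nat.log 2 x + 1) * Nat.log 2 x + 1) ^ r)) : ℕ) : ℝ) := by
    exact_mod_cast h2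
  refine h3.trans ?_
  push_cast
  have a1 : ((x / y : ℕ) : ℝ) ≤ (x : ℝ) / y := Nat.cast_div_le
  have hl : (0 : ℝ) ≤ (Nat.log 2 x : ℝ) := Nat.cast_nonneg _
  have hE0 : (0 : ℝ) ≤ (E : ℝ) := Nat.cast_nonneg _
  have a2 : ((E : ℝ) * (Nat.log 2 x + 1) * Nat.log 2 x + 1) ^ r ≤
      ((E : ℝ) * (Nat.log 2 x + 1) ^ 2 + 1) ^ r := by
    apply pow_le_pow_left₀ (by positivity)
    nlinarith [mul_nonneg hE0 hl]
  have a3 : (E : ℝ) * ((E + 1) ^ r * ((E : ℝ) * (Nat.log 2 x + 1) * Nat.log 2 x + 1) ^ r) ≤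
      ((E : ℝ) + 1) ^ (r + 1) * ((E : ℝ) * (Nat.log 2 x + 1) ^ 2 + 1) ^ r := by
    rw [pow_succ, ← mul_assoc, mul_comm (((E : ℝ) + 1) ^ r) ((E : ℝ) + 1)]
    apply mul_le_mul _ a2 (by positivity) (by positivity)
    apply mul_le_mul_of_nonneg_right _ (by positivity)
    linarith
  have a4 := mul_le_mul a1 a3 (by positivity) (by positivity)
  rw [← mul_assoc ((x : ℝ) / y)] at a4
  exact a4

end Pool.Agent.BKW.H15
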